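import Pool.Agent.N783.PF.Def
import Pool.Agent.N456.PQ.CQA

/-!
# Project PF (helper783), parts CQA and CQB (subtask 7974), by helper42: pairs of symmetric matrices
over a finite field

`CQA` is the version over any finite field of the theorem of helper456 and helper87. For `CQB` let
`T = A⁻¹ B` have the irreducible characteristic polynomial `f` of odd degree `2 g + 1`. The form
`(v, A p(T) v)` is `top (c p)` for some `c` in the field `E = κ[x] / (f)`, the determinant of the Gram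
matrix shows that the norm of `c` is a square, hence `c` is a square in `E`, so the pair is
distinguished.
-/

set_option autoImplicit false
set_option linter.all false

open Polynomial Matrix

namespace Pool.Agent.N42.PF

open Pool.Agent.N352.PJ (Mt Jm)
open Pool.Agent.N783.PQ (chp form Dist)
open Pool.Agent.N87.PJ (J_sq J_tr J_mul_apply TT Ph gram Xi Xi_ne Xi_neg MM MM_gram MM_unit)

variable {g : ℕ} {F : Type} [Field F] {f : F[X]}

/-! ### The count for the antidiagonal form -/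

lemma chf (B : Mt g F) (hB : Pool.Agent.N352.PJ.chp B = f) : aeval (TT B) f = 0 := by
  rw [← hB]
  exact Matrix.aeval_self_charpoly (TT B)

/-- all values of the form are determined -/
lemma form_det {B B' : Mt g F} {ξ ξ' : Fin (2 * g + 1) → F} (hc : Pool.Agent.N352.PJ.chp B = f)
    (hc' : Pool.Agent.N352.PJ.chp B' = f) (hmon : f.Monic) (hdeg : f.natDegree = 2 * g + 1)
    (hξ : Xi B ξ) (hξ' : Xi B' ξ') (m : ℕ) :
    Pool.Agent.N352.PJ.form B m ξ = Pool.Agent.N352.PJ.form B' m ξ' := by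
  have rec' : ∀ (B : Mt g F) (ξ : Fin (2 * g + 1) → F), Pool.Agent.N352.PJ.chp B = f → ∀ m : ℕ,
      Pool.Agent.N352.PJ.form B (m + (2 * g + 1)) ξ =
        -∑ k ∈ Finset.range (2 * g + 1), f.coeff k * Pool.Agent.N352.PJ.form B (m + k) ξ := by
    intro B ξ hc m
    have h1 : Ph ξ (TT B ^ m * aeval (TT B) f) = 0 := by
      rw [chf B hc, mul_zero, map_zero]
    rw [aeval_eq_sum_range, hdeg, Finset.mul_sum, map_sum, Finset.sum_range_succ] at h1
    have h2 : f.coeff (2 * g + 1) = 1 := by rw [← hdeg]; exact hmon.coeff_natDegree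
    rw [h2, one_smul, ← pow_add, ← Pool.Agent.N87.PJ.form_eq] at h1
    rw [eq_neg_iff_add_eq_zero, add_comm, ← h1]
    congr 1
    refine Finset.sum_congr rfl fun k _ => ?_
    rw [mul_smul_comm, map_smul, ← pow_add, ← Pool.Agent.N87.PJ.form_eq, smul_eq_mul]
  induction m using Nat.strong_induction_on with
  | _ m ih =>
    by_cases hm2 : m ≤ 2 * g
    · rw [hξ m hm2, hξ' m hm2]
    · obtain ⟨k, rfl⟩ : ∃ k, m = k + (2 * g + 1) := ⟨m - (2 * g + 1), by omega⟩
      rw [rec' B ξ hc, rec' B' ξ' hc']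
      congr 1
      refine Finset.sum_congr rfl fun j hj => ?_
      rw [ih (k + j) (by have := Finset.mem_range.1 hj; omega)]

/-- the matrix determines `B` and `ξ` -/
lemma MM_inj {B B' : Mt g F} {ξ ξ' : Fin (2 * g + 1) → F} (hB : B.IsSymm)
    (hc : Pool.Agent.N352.PJ.chp B = f)
    (hc' : Pool.Agent.N352.PJ.chp B' = f) (hmon : f.Monic) (hdeg : f.natDegree = 2 * g + 1)
    (hξ : Xi B ξ) (hM : MM B ξ = MM B' ξ') : B = B' ∧ ξ = ξ' := by
  have hcol : ∀ j : ℕ, j < 2 * g + 1 → (TT B ^ j) *ᵥ ξ = (TT B' ^ j) *ᵥ ξ' := by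
    intro j hj
    funext i
    exact congrFun (congrFun hM i) ⟨j, hj⟩
  have hξξ : ξ = ξ' := by
    have := hcol 0 (by omega)
    simpa using this
  have htop : ∀ (B : Mt g F) (ξ : Fin (2 * g + 1) → F), Pool.Agent.N352.PJ.chp B = f →
      (TT B ^ (2 * g + 1)) *ᵥ ξ =
        -∑ k ∈ Finset.range (2 * g + 1), f.coeff k • ((TT B ^ k) *ᵥ ξ) := by
    intro B ξ hc
    have h1 : aeval (TT B) f *ᵥ ξ = 0 := by rw [chf B hc, Matrix.zero_mulVec]
    rw [aeval_eq_sum_range, hdeg, Finset.sum_range_succ] at h1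
    have h2 : f.coeff (2 * g + 1) = 1 := by rw [← hdeg]; exact hmon.coeff_natDegree
    rw [h2, one_smul, Matrix.add_mulVec, Matrix.sum_mulVec] at h1
    have h3 : ∑ k ∈ Finset.range (2 * g + 1), (f.coeff k • TT B ^ k) *ᵥ ξ =
        ∑ k ∈ Finset.range (2 * g + 1), f.coeff k • ((TT B ^ k) *ᵥ ξ) :=
      Finset.sum_congr rfl fun k _ => by rw [Matrix.smul_mulVec]
    rw [h3] at h1
    exact eq_neg_of_add_eq_zero_right h1
  have hcol' : ∀ j : ℕ, j < 2 * g + 1 → (TT B ^ (j + 1)) *ᵥ ξ = (TT B' ^ (j + 1)) *ᵥ ξ' := by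
    intro j hj
    by_cases hj' : j + 1 < 2 * g + 1
    · exact hcol _ hj'
    · have : j + 1 = 2 * g + 1 := by omega
      rw [this, htop B ξ hc, htop B' ξ' hc']
      congr 1
      refine Finset.sum_congr rfl fun k hk => ?_
      rw [hcol k (Finset.mem_range.1 hk)]
  have hTM : TT B * MM B ξ = TT B' * MM B ξ := by
    ext i j
    have h1 : (TT B * MM B ξ) i j = ((TT B ^ ((j : ℕ) + 1)) *ᵥ ξ) i := by
      rw [pow_succ', ← Matrix.mulVec_mulVec]
      rfl
    have h2 : (TT B' * MM B ξ) i j = ((TT B' ^ ((j : ℕ) + 1)) *ᵥ ξ') i := by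
      rw [hM, pow_succ', ← Matrix.mulVec_mulVec]
      rfl
    rw [h1, h2, hcol' j j.2]
  have hT : TT B = TT B' := by
    have hu := MM_unit hB hξ
    have h1 := congrArg (· * (MM B ξ)⁻¹) hTM
    simp only [Matrix.mul_assoc, Matrix.mul_nonsing_inv _ hu, Matrix.mul_one] at h1
    exact h1
  refine ⟨?_, hξξ⟩
  have h1 := congrArg (Jm g F * ·) hT
  simp only [TT] at h1
  rw [← Matrix.mul_assoc, ← Matrix.mul_assoc, J_sq, Matrix.one_mul, Matrix.one_mul] at h1
  exact h1

/-- distinguished matrices with given characteristic polynomial -/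
theorem cqf (hON : Pool.Agent.N352.PJ.S_ON) [Finite F] (h2 : (2 : F) ≠ 0) (hm : f.Monic)
    (hd : f.natDegree = 2 * g + 1) :
    Nat.card {B : Mt g F // B.IsSymm ∧ Pool.Agent.N352.PJ.chp B = f ∧
      Pool.Agent.N352.PJ.Dist B} ≤ Nat.card F ^ (g * (2 * g + 1)) := by
  classical
  let P : Type := {p : Mt g F × (Fin (2 * g + 1) → F) // p.1.IsSymm ∧
    Pool.Agent.N352.PJ.chp p.1 = f ∧ Xi p.1 p.2}
  let D : Type := {B : Mt g F // B.IsSymm ∧ Pool.Agent.N352.PJ.chp B = f ∧
    Pool.Agent.N352.PJ.Dist B}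
  let O : Type := {M : Mt g F // Mᵀ * Jm g F * M = Jm g F}
  haveI : Finite (Mt g F) := inferInstance
  have hPO : Nat.card P ≤ Nat.card O := by
    rcases isEmpty_or_nonempty P with hP | ⟨p₀⟩
    · rw [Nat.card_of_isEmpty]
      exact Nat.zero_le _
    · obtain ⟨⟨B₀, ξ₀⟩, hB₀, hc₀, hξ₀⟩ := p₀
      simp only at hB₀ hc₀ hξ₀
      have hu₀ := MM_unit hB₀ hξ₀
      set M₀ := MM B₀ ξ₀ with hM₀
      have hH : ∀ p : P, (MM p.1.1 p.1.2)ᵀ * Jm g F * MM p.1.1 p.1.2 = M₀ᵀ * Jm g F * M₀ := by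
        intro p
        ext i j
        rw [MM_gram p.2.1, hM₀, MM_gram hB₀]
        exact form_det p.2.2.1 hc₀ hm hd p.2.2.2 hξ₀ _
      let f' : P → O := fun p => ⟨MM p.1.1 p.1.2 * M₀⁻¹, by
        rw [Matrix.transpose_mul]
        calc (M₀⁻¹)ᵀ * (MM p.1.1 p.1.2)ᵀ * Jm g F * (MM p.1.1 p.1.2 * M₀⁻¹) =
            (M₀⁻¹)ᵀ * ((MM p.1.1 p.1.2)ᵀ * Jm g F * MM p.1.1 p.1.2) * M₀⁻¹ := by
              simp only [Matrix.mul_assoc]
          _ = (M₀⁻¹)ᵀ * (M₀ᵀ * Jm g F * M₀) * M₀⁻¹ := by rw [hH p]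
          _ = ((M₀⁻¹)ᵀ * M₀ᵀ) * Jm g F * (M₀ * M₀⁻¹) := by simp only [Matrix.mul_assoc]
          _ = Jm g F := by
              rw [Matrix.mul_nonsing_inv _ hu₀, ← Matrix.transpose_mul,
                Matrix.mul_nonsing_inv _ hu₀, Matrix.transpose_one, Matrix.one_mul,
                Matrix.mul_one]⟩
      refine Nat.card_le_card_of_injective f' ?_
      intro p p' hpp
      have h3 : MM p.1.1 p.1.2 * M₀⁻¹ = MM p'.1.1 p'.1.2 * M₀⁻¹ := congrArg Subtype.val hpp
      have h4 : MM p.1.1 p.1.2 = MM p'.1.1 p'.1.2 := by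
        have h5 := congrArg (· * M₀) h3
        simp only [Matrix.mul_assoc, Matrix.nonsing_inv_mul _ hu₀, Matrix.mul_one] at h5
        exact h5
      obtain ⟨h5, h6⟩ := MM_inj p.2.1 p.2.2.1 p'.2.2.1 hm hd p.2.2.2 h4
      exact Subtype.ext (Prod.ext h5 h6)
  have hDP : Nat.card (D × Bool) ≤ Nat.card P := by
    have hch : ∀ B : D, ∃ ξ : Fin (2 * g + 1) → F, Xi B.1 ξ := fun B => B.2.2.2
    choose ξ hξ using hch
    let v : D → Bool → (Fin (2 * g + 1) → F) := fun B st => if st then ξ B else -ξ B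
    have hv : ∀ B st, Xi B.1 (v B st) := by
      rintro B (_ | _)
      · exact Xi_neg (hξ B)
      · exact hξ B
    have hvi : ∀ B, Function.Injective (v B) := by
      intro B
      have n1 : ξ B ≠ -ξ B := by
        intro h3
        have h4 : (2 : F) • ξ B = 0 := by
          rw [two_smul]
          nth_rewrite 2 [h3]
          exact add_neg_cancel _
        exact Xi_ne (hξ B) ((smul_eq_zero.1 h4).resolve_left h2)
      rintro (_ | _) (_ | _) hst
      · rfl
      · exact absurd hst.symm n1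
      · exact absurd hst n1
      · rfl
    let f' : D × Bool → P := fun q => ⟨(q.1.1, v q.1 q.2), q.1.2.1, q.1.2.2.1, hv q.1 q.2⟩
    refine Nat.card_le_card_of_injective f' ?_
    rintro ⟨B, st⟩ ⟨B', st'⟩ hq
    have h3 : (B.1, v B st) = (B'.1, v B' st') := congrArg Subtype.val hq
    have h4 : B = B' := Subtype.ext (congrArg Prod.fst h3)
    subst h4
    have h5 : v B st = v B st' := congrArg Prod.snd h3
    rw [hvi B h5]
  rw [Nat.card_prod] at hDP
  have h3 : Nat.card Bool = 2 := by simp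
  rw [h3] at hDP
  have h4 := hON g F h2
  have h5 : Nat.card D * 2 ≤ 2 * Nat.card F ^ (g * (2 * g + 1)) := hDP.trans (hPO.trans h4)
  show Nat.card D ≤ _
  omega

/-! ### From a general form to the antidiagonal form -/

lemma transfer [Finite F] {A P : Mt g F} (hP : IsUnit P.det) (hPA : Pᵀ * Jm g F * P = A)
    (f : F[X]) :
    Nat.card {B : Mt g F // B.IsSymm ∧ chp A B = f ∧ Dist A B} ≤
      Nat.card {B : Mt g F // B.IsSymm ∧ Pool.Agent.N352.PJ.chp B = f ∧
        Pool.Agent.N352.PJ.Dist B} := by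
  have hPA' : A⁻¹ = P⁻¹ * Jm g F * (P⁻¹)ᵀ := by
    refine Matrix.inv_eq_left_inv ?_
    rw [← hPA]
    calc P⁻¹ * Jm g F * (P⁻¹)ᵀ * (Pᵀ * Jm g F * P) =
        P⁻¹ * Jm g F * ((P⁻¹)ᵀ * Pᵀ) * Jm g F * P := by
          simp only [Matrix.mul_assoc]
      _ = P⁻¹ * (Jm g F * Jm g F) * P := by
          rw [← Matrix.transpose_mul, Matrix.mul_nonsing_inv _ hP, Matrix.transpose_one,
            Matrix.mul_one, Matrix.mul_assoc P⁻¹]
      _ = 1 := by rw [J_sq, Matrix.mul_one, Matrix.nonsing_inv_mul _ hP]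
  have hconj : ∀ B : Mt g F, A⁻¹ * B =
      P⁻¹ * (Jm g F * ((P⁻¹)ᵀ * B * P⁻¹)) * P := by
    intro B
    rw [hPA']
    calc P⁻¹ * Jm g F * (P⁻¹)ᵀ * B = P⁻¹ * Jm g F * (P⁻¹)ᵀ * B * (P⁻¹ * P) := by
          rw [Matrix.nonsing_inv_mul _ hP, Matrix.mul_one]
      _ = _ := by simp only [Matrix.mul_assoc]
  have hpow : ∀ (B : Mt g F) (m : ℕ), P * (A⁻¹ * B) ^ m =
      (Jm g F * ((P⁻¹)ᵀ * B * P⁻¹)) ^ m * P := by
    intro B m
    induction m with
    | zero => simp
    | succ m ih =>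
      rw [pow_succ, ← Matrix.mul_assoc, ih, pow_succ]
      conv_lhs => rw [hconj B]
      simp only [Matrix.mul_assoc]
      rw [← Matrix.mul_assoc P P⁻¹, Matrix.mul_nonsing_inv _ hP, Matrix.one_mul]
  refine Nat.card_le_card_of_injective (fun B => ⟨(P⁻¹)ᵀ * B.1 * P⁻¹, ?_, ?_, ?_⟩) ?_
  · show ((P⁻¹)ᵀ * B.1 * P⁻¹)ᵀ = _
    rw [Matrix.transpose_mul, Matrix.transpose_mul, Matrix.transpose_transpose, B.2.1.eq,
      Matrix.mul_assoc]
  · refine Eq.trans ?_ B.2.2.1
    show (Jm g F * ((P⁻¹)ᵀ * B.1 * P⁻¹)).charpoly = (A⁻¹ * B.1).charpoly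
    conv_rhs => rw [hconj B.1, Matrix.charpoly_mul_comm, ← Matrix.mul_assoc,
      Matrix.mul_nonsing_inv _ hP, Matrix.one_mul]
  · obtain ⟨ξ, hξ⟩ := B.2.2.2
    refine ⟨P *ᵥ ξ, fun m hm' => ?_⟩
    rw [← hξ m hm']
    show (P *ᵥ ξ) ⬝ᵥ ((Jm g F * (Jm g F * ((P⁻¹)ᵀ * B.1 * P⁻¹)) ^ m) *ᵥ
      (P *ᵥ ξ)) = ξ ⬝ᵥ ((A * (A⁻¹ * B.1) ^ m) *ᵥ ξ)
    have h9 : P *ᵥ ξ = ξ ᵥ* Pᵀ := (Matrix.vecMul_transpose _ _).symm
    rw [Matrix.mulVec_mulVec, h9, ← Matrix.dotProduct_mulVec, Matrix.mulVec_mulVec,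
      Matrix.mul_assoc (Jm g F), ← hpow, ← Matrix.mul_assoc, ← Matrix.mul_assoc, hPA]
  · intro B B' hBB
    have h3 : (P⁻¹)ᵀ * B.1 * P⁻¹ = (P⁻¹)ᵀ * B'.1 * P⁻¹ := congrArg Subtype.val hBB
    have h4 : ∀ B : Mt g F, Pᵀ * ((P⁻¹)ᵀ * B * P⁻¹) * P = B := by
      intro B
      calc Pᵀ * ((P⁻¹)ᵀ * B * P⁻¹) * P = (Pᵀ * (P⁻¹)ᵀ) * B * (P⁻¹ * P) := by
            simp only [Matrix.mul_assoc]
        _ = B := by
            rw [← Matrix.transpose_mul, Matrix.nonsing_inv_mul _ hP, Matrix.transpose_one,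
              Matrix.one_mul, Matrix.mul_one]
    exact Subtype.ext (by rw [← h4 B.1, h3, h4])

/-! ### The determinant of the antidiagonal matrix -/

/-- the antidiagonal matrix of any size -/
def Rv (n : ℕ) (R : Type) [CommRing R] : Matrix (Fin n) (Fin n) R :=
  Matrix.of fun i j => if j = Fin.rev i then 1 else 0

lemma det_Rv_succ (R : Type) [CommRing R] (n : ℕ) :
    (Rv (n + 1) R).det = (-1) ^ n * (Rv n R).det := by
  rw [Matrix.det_succ_row_zero, Finset.sum_eq_single (Fin.last n)]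
  · have h1 : (Rv (n + 1) R).submatrix Fin.succ (Fin.last n).succAbove = Rv n R := by
      ext i j
      simp [Rv, Fin.succAbove_last, Fin.rev_succ]
    have h2 : Rv (n + 1) R 0 (Fin.last n) = 1 := by simp [Rv]
    rw [h1, h2]
    simp
  · intro j _ hj
    have h2 : Rv (n + 1) R 0 j = 0 := by
      simp only [Rv, Matrix.of_apply, Fin.rev_zero]
      rw [if_neg hj]
    rw [h2]
    ring
  · intro h
    exact absurd (Finset.mem_univ _) h

lemma det_Jm (R : Type) [CommRing R] : ∀ g : ℕ, (Jm g R).det = (-1) ^ g := by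
  intro g
  show (Rv (2 * g + 1) R).det = (-1) ^ g
  induction g with
  | zero =>
    rw [det_Rv_succ]
    simp
  | succ g ih =>
    show (Rv (2 * g + 1 + 1 + 1) R).det = _
    rw [det_Rv_succ, det_Rv_succ, ih]
    have e1 : ((-1 : R)) ^ (2 * g + 1 + 1) = 1 := by
      rw [show 2 * g + 1 + 1 = 2 * (g + 1) by ring, pow_mul]
      simp
    have e2 : ((-1 : R)) ^ (2 * g + 1) = -1 := by
      rw [pow_succ, pow_mul]
      simp
    rw [e1, e2, pow_succ]
    ring

/-! ### Irreducible characteristic polynomials -/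

section irr

variable (A T : Mt g F) (v : Fin (2 * g + 1) → F)

/-- the functional `(v, A p(T) v)` on the polynomials -/
noncomputable def Lp : F[X] →ₗ[F] F where
  toFun p := v ⬝ᵥ ((A * aeval T p) *ᵥ v)
  map_add' p q := by
    rw [map_add, Matrix.mul_add, Matrix.add_mulVec, dotProduct_add]
  map_smul' c p := by
    rw [map_smul, Matrix.mul_smul, Matrix.smul_mulVec, dotProduct_smul, RingHom.id_apply]

lemma Lp_apply (p : F[X]) : Lp A T v p = v ⬝ᵥ ((A * aeval T p) *ᵥ v) := rfl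

variable {A T}

lemma sa_pow' (h : Tᵀ * A = A * T) (m : ℕ) : (T ^ m)ᵀ * A = A * T ^ m := by
  induction m with
  | zero => simp
  | succ m ih =>
    rw [pow_succ', Matrix.transpose_mul, Matrix.mul_assoc, h, ← Matrix.mul_assoc, ih,
      Matrix.mul_assoc, ← pow_succ, ← pow_succ']

lemma sa_poly' (h : Tᵀ * A = A * T) (p : F[X]) : (aeval T p)ᵀ * A = A * aeval T p := by
  induction p using Polynomial.induction_on' with
  | add p q hp hq =>
    rw [map_add, Matrix.transpose_add, Matrix.add_mul, Matrix.mul_add, hp, hq]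
  | monomial m c =>
    rw [aeval_monomial, ← Algebra.smul_def, Matrix.transpose_smul, Matrix.smul_mul, sa_pow' h,
      Matrix.mul_smul]

lemma Lp_move (h : Tᵀ * A = A * T) (p r : F[X]) :
    (aeval T r *ᵥ v) ⬝ᵥ ((A * aeval T p) *ᵥ (aeval T r *ᵥ v)) = Lp A T v (r * p * r) := by
  have h9 : aeval T r *ᵥ v = v ᵥ* (aeval T r)ᵀ := (Matrix.vecMul_transpose _ _).symm
  rw [Lp_apply, map_mul, map_mul, Matrix.mulVec_mulVec, h9, ← Matrix.dotProduct_mulVec,
    Matrix.mulVec_mulVec, ← Matrix.mul_assoc, ← Matrix.mul_assoc, sa_poly' h]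
  simp only [Matrix.mul_assoc]

end irr

/-- a nonzero symmetric form has an anisotropic vector -/
lemma exists_aniso (h2 : (2 : F) ≠ 0) {A : Mt g F} (hA : A.IsSymm) (hd : A.det ≠ 0) :
    ∃ v : Fin (2 * g + 1) → F, v ⬝ᵥ (A *ᵥ v) ≠ 0 := by
  by_contra hcon
  push Not at hcon
  apply hd
  have h1 : ∀ i, A i i = 0 := by
    intro i
    have := hcon (Pi.single i 1)
    simpa using this
  have h3 : A = 0 := by
    ext i j
    have h4 := hcon (Pi.single i 1 + Pi.single j 1)
    rw [Matrix.mulVec_add, add_dotProduct, dotProduct_add, dotProduct_add] at h4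
    simp only [Matrix.mulVec_single_one, single_dotProduct, Matrix.col_apply, one_mul] at h4
    rw [h1 i, h1 j, hA.apply i j] at h4
    have h5 : (2 : F) * A i j = 0 := by rw [two_mul]; simpa using h4
    simpa using (mul_eq_zero.1 h5).resolve_left h2
  rw [h3]
  exact Matrix.det_zero

/-- if the norm is a square then the element is a square -/
lemma sq_of_norm {K E : Type} [Field K] [Field E] [Algebra K E] [Finite E] (h2 : (2 : K) ≠ 0)
    {c : E} (hc : c ≠ 0) {d : K} (hN : Algebra.norm K c = d ^ 2) : ∃ s : E, s * s = c := by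
  haveI : Finite K := Finite.of_injective _ (algebraMap K E).injective
  haveI := Fintype.ofFinite K
  haveI := Fintype.ofFinite E
  have h2E : (2 : E) ≠ 0 := by
    intro h
    apply h2
    apply (algebraMap K E).injective
    rw [map_ofNat, map_zero, h]
  have hcK : ringChar K ≠ 2 := by
    intro h
    apply h2
    have := ringChar.Nat.cast_ringChar (R := K)
    rw [h] at this
    exact_mod_cast this
  have hcE : ringChar E ≠ 2 := by
    intro h
    apply h2E
    have := ringChar.Nat.cast_ringChar (R := E)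
    rw [h] at this
    exact_mod_cast this
  have hd : d ≠ 0 := by
    rintro rfl
    rw [zero_pow two_ne_zero, Algebra.norm_eq_zero_iff] at hN
    exact hc hN
  have oK := FiniteField.odd_card_of_char_ne_two hcK
  have oE := FiniteField.odd_card_of_char_ne_two hcE
  have hn := FiniteField.algebraMap_norm_eq_pow (K := K) (x := c)
  rw [Nat.card_eq_fintype_card, Nat.card_eq_fintype_card] at hn
  have hcard : Fintype.card E = Fintype.card K ^ Module.finrank K E := Module.card_eq_pow_finrank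
  have hdvd : Fintype.card K - 1 ∣ Fintype.card E - 1 := by
    rw [hcard]
    simpa only [one_pow] using Nat.sub_dvd_pow_sub_pow (Fintype.card K) 1 (Module.finrank K E)
  obtain ⟨m, hm⟩ := hdvd
  have hK1 : 1 < Fintype.card K := Fintype.one_lt_card
  have hE1 : 1 < Fintype.card E := Fintype.one_lt_card
  have hdiv : (Fintype.card E - 1) / (Fintype.card K - 1) = m := by
    rw [hm]
    exact Nat.mul_div_cancel_left _ (by omega)
  rw [hdiv] at hn
  have hhalf : Fintype.card E / 2 = m * (Fintype.card K / 2) := by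
    have e1 : Fintype.card K = 2 * (Fintype.card K / 2) + 1 := by omega
    have e2 : Fintype.card E = 2 * (Fintype.card E / 2) + 1 := by omega
    have e3 : 2 * (Fintype.card E / 2) = 2 * (Fintype.card K / 2) * m := by
      have h3 : Fintype.card E - 1 = 2 * (Fintype.card E / 2) := by omega
      have h4 : Fintype.card K - 1 = 2 * (Fintype.card K / 2) := by omega
      rw [h3, h4] at hm
      exact hm
    have e4 : 2 * (Fintype.card E / 2) = 2 * (m * (Fintype.card K / 2)) := by rw [e3]; ring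
    omega
  have hsq : IsSquare c := by
    rw [FiniteField.isSquare_iff hcE hc, hhalf, pow_mul, ← hn, hN, ← map_pow, ← pow_mul]
    have e5 : 2 * (Fintype.card K / 2) = Fintype.card K - 1 := by omega
    rw [e5, FiniteField.pow_card_sub_one_eq_one d hd, map_one]
  obtain ⟨s, hs⟩ := hsq
  exact ⟨s, hs.symm⟩

/-- **pairs with irreducible characteristic polynomial are distinguished** -/
theorem dist_of [Finite F] (h2 : (2 : F) ≠ 0) (hm : f.Monic) (hi : Irreducible f)
    (hd : f.natDegree = 2 * g + 1) {A B : Mt g F} (hA : A.IsSymm) (hB : B.IsSymm) {x : F}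
    (hx : x ≠ 0) (hdet : A.det = (-1) ^ g * x ^ 2) (hc : chp A B = f) : Dist A B := by
  have hone : ((-1 : F) ^ g) * (-1) ^ g = 1 := by rw [← mul_pow]; simp
  have hA0 : A.det ≠ 0 := by
    rw [hdet]
    refine mul_ne_zero ?_ (pow_ne_zero 2 hx)
    intro h
    rw [h, zero_mul] at hone
    exact zero_ne_one hone
  have hu : IsUnit A.det := isUnit_iff_ne_zero.2 hA0
  set T : Mt g F := A⁻¹ * B with hT
  have hAT : A * T = B := by
    rw [hT, ← Matrix.mul_assoc, Matrix.mul_nonsing_inv _ hu, Matrix.one_mul]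
  have hTA : Tᵀ * A = A * T := by
    have h1 := congrArg Matrix.transpose hAT
    rw [Matrix.transpose_mul, hA.eq, hB.eq] at h1
    rw [h1, hAT]
  have hf : aeval T f = 0 := by
    rw [← hc]
    exact Matrix.aeval_self_charpoly T
  obtain ⟨v, hv⟩ := exists_aniso h2 hA hA0
  haveI : Fact (Irreducible f) := ⟨hi⟩
  let pb : PowerBasis F (AdjoinRoot f) := AdjoinRoot.powerBasis' hm
  haveI : FiniteDimensional F (AdjoinRoot f) := pb.finite
  haveI : Finite (AdjoinRoot f) := Module.finite_of_finite F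
  let rp : AdjoinRoot f →ₗ[F] F[X] := AdjoinRoot.modByMonicHom hm
  let ℓ : AdjoinRoot f →ₗ[F] F := (Lp A T v).comp rp
  have hℓ : ∀ p : F[X], ℓ (AdjoinRoot.mk f p) = Lp A T v p := by
    intro p
    show Lp A T v (AdjoinRoot.modByMonicHom hm (AdjoinRoot.mk f p)) = _
    rw [AdjoinRoot.modByMonicHom_mk]
    have h3 := modByMonic_add_div p f
    conv_rhs => rw [← h3]
    rw [map_add]
    have h4 : Lp A T v (f * (p /ₘ f)) = 0 := by
      rw [Lp_apply, map_mul, hf, zero_mul, mul_zero, Matrix.zero_mulVec, dotProduct_zero]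
    rw [h4, add_zero]
  let top : AdjoinRoot f →ₗ[F] F := (Polynomial.lcoeff F (2 * g)).comp rp
  have htop : ∀ m ≤ 2 * g, top (AdjoinRoot.root f ^ m) = if m = 2 * g then 1 else 0 := by
    intro m hm'
    have e1 : AdjoinRoot.root f ^ m = AdjoinRoot.mk f (X ^ m) := by
      rw [map_pow, AdjoinRoot.mk_X]
    rw [e1]
    show (AdjoinRoot.modByMonicHom hm (AdjoinRoot.mk f (X ^ m))).coeff (2 * g) = _
    rw [AdjoinRoot.modByMonicHom_mk, (modByMonic_eq_self_iff hm).2, coeff_X_pow]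
    · simp only [eq_comm]
    · rw [degree_X_pow, degree_eq_natDegree hm.ne_zero, hd]
      exact_mod_cast (by omega : m < 2 * g + 1)
  let Φ : AdjoinRoot f →ₗ[F] Module.Dual F (AdjoinRoot f) :=
    (LinearMap.mul F (AdjoinRoot f)).compr₂ top
  have hΦ : ∀ c e, Φ c e = top (c * e) := fun c e => rfl
  have hinj : Function.Injective Φ := by
    rw [← LinearMap.ker_eq_bot, LinearMap.ker_eq_bot']
    intro c hc0
    by_contra hcne
    have h3 := hΦ c (c⁻¹ * AdjoinRoot.root f ^ (2 * g))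
    rw [hc0, LinearMap.zero_apply, ← mul_assoc, mul_inv_cancel₀ hcne, one_mul, htop _ le_rfl,
      if_pos rfl] at h3
    exact zero_ne_one h3
  have hsurj : Function.Surjective Φ :=
    (LinearMap.injective_iff_surjective_of_finrank_eq_finrank
      (Subspace.dual_finrank_eq).symm).1 hinj
  obtain ⟨c, hcℓ⟩ := hsurj ℓ
  have hcl : ∀ e, top (c * e) = ℓ e := fun e => by rw [← hΦ, hcℓ]
  have hc0 : c ≠ 0 := by
    rintro rfl
    have h3 := hcl 1
    rw [zero_mul, map_zero, ← map_one (AdjoinRoot.mk f), hℓ, Lp_apply, map_one, Matrix.mul_one] at h3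
    exact hv h3.symm
  have hdim : pb.dim = 2 * g + 1 := hd
  let b : Module.Basis (Fin (2 * g + 1)) F (AdjoinRoot f) := pb.basis.reindex (finCongr hdim)
  have hb : ∀ i, b i = AdjoinRoot.root f ^ (i : ℕ) := by
    intro i
    show (pb.basis.reindex (finCongr hdim)) i = _
    rw [Module.Basis.reindex_apply, pb.basis_eq_pow]
    rfl
  let Gm : AdjoinRoot f → Mt g F := fun c => Matrix.of fun i j => top (c * (b i * b j))
  have hG : Gm c = Gm 1 * Algebra.leftMulMatrix b c := by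
    ext i j
    rw [Matrix.mul_apply]
    simp only [Gm, Matrix.of_apply, Algebra.leftMulMatrix_eq_repr_mul, one_mul]
    have h3 : c * b j = ∑ k, b.repr (c * b j) k • b k := (b.sum_repr _).symm
    have h4 : c * (b i * b j) = b i * (c * b j) := by ring
    rw [h4]
    conv_lhs => rw [h3]
    rw [Finset.mul_sum, map_sum]
    refine Finset.sum_congr rfl fun k _ => ?_
    rw [mul_smul_comm, map_smul, smul_eq_mul, mul_comm]
  have hdetG : (Gm 1).det = (-1) ^ g := by
    have h3 : (Jm g F * Gm 1).det = 1 := by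
      have h4 : ∀ i j, (Jm g F * Gm 1) i j =
          top (AdjoinRoot.root f ^ (((Fin.rev i : Fin (2 * g + 1)) : ℕ) + (j : ℕ))) := by
        intro i j
        rw [J_mul_apply]
        show top (1 * (b (Fin.rev i) * b j)) = _
        rw [hb, hb, one_mul, ← pow_add]
      have h5 : (Jm g F * Gm 1).BlockTriangular id := by
        intro i j hij
        have hij' : j < i := hij
        have h6 : (j : ℕ) < i := hij'
        have h7 := i.2
        rw [h4, htop _ (by rw [Fin.val_rev]; omega), if_neg (by rw [Fin.val_rev]; omega)]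
      rw [Matrix.det_of_upperTriangular h5]
      refine Finset.prod_eq_one fun i _ => ?_
      have h7 := i.2
      rw [h4, htop _ (by rw [Fin.val_rev]; omega), if_pos (by rw [Fin.val_rev]; omega)]
    rw [Matrix.det_mul, det_Jm] at h3
    calc (Gm 1).det = ((-1) ^ g * (-1) ^ g) * (Gm 1).det := by rw [hone, one_mul]
      _ = (-1) ^ g * ((-1) ^ g * (Gm 1).det) := by ring
      _ = (-1) ^ g := by rw [h3, mul_one]
  set M : Mt g F := Matrix.of fun i j => ((T ^ (j : ℕ)) *ᵥ v) i with hM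
  have hMG : Mᵀ * A * M = Gm c := by
    ext i j
    rw [Matrix.mul_mul_apply]
    have h1 : Mᵀ i = T ^ (i : ℕ) *ᵥ v := rfl
    have h3 : Mᵀ j = T ^ (j : ℕ) *ᵥ v := rfl
    rw [h1, h3, ← Matrix.vecMul_transpose, ← Matrix.dotProduct_mulVec, Matrix.mulVec_mulVec,
      Matrix.mulVec_mulVec, sa_pow' hTA, Matrix.mul_assoc, ← pow_add]
    show _ = top (c * (b i * b j))
    have e1 : b i * b j = AdjoinRoot.mk f (X ^ ((i : ℕ) + (j : ℕ))) := by
      rw [hb, hb, ← pow_add, map_pow, AdjoinRoot.mk_X]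
    rw [e1, hcl, hℓ, Lp_apply, map_pow, aeval_X]
  have hN : Algebra.norm F c = (x * M.det) ^ 2 := by
    have h3 := congrArg Matrix.det hMG
    rw [hG, Matrix.det_mul, Matrix.det_mul, Matrix.det_transpose, Matrix.det_mul, hdetG, hdet,
      ← Algebra.norm_eq_matrix_det b c] at h3
    calc Algebra.norm F c = ((-1) ^ g * (-1) ^ g) * Algebra.norm F c := by rw [hone, one_mul]
      _ = (-1) ^ g * ((-1) ^ g * Algebra.norm F c) := by ring
      _ = (-1) ^ g * (M.det * ((-1) ^ g * x ^ 2) * M.det) := by rw [h3]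
      _ = ((-1) ^ g * (-1) ^ g) * (x * M.det) ^ 2 := by ring
      _ = _ := by rw [hone, one_mul]
  obtain ⟨s, hs⟩ := sq_of_norm h2 hc0 hN
  have hs0 : s ≠ 0 := by
    rintro rfl
    rw [zero_mul] at hs
    exact hc0 hs.symm
  set r : F[X] := rp s⁻¹ with hr
  have hrs : AdjoinRoot.mk f r = s⁻¹ := AdjoinRoot.mk_leftInverse hm s⁻¹
  refine ⟨aeval T r *ᵥ v, fun m hm' => ?_⟩
  have h3 : form A B m (aeval T r *ᵥ v) = Lp A T v (r * X ^ m * r) := by
    rw [← Lp_move v hTA, map_pow, aeval_X]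
    rfl
  have h5 : AdjoinRoot.mk f (r * X ^ m * r) = s⁻¹ * AdjoinRoot.root f ^ m * s⁻¹ := by
    rw [map_mul, map_mul, hrs, map_pow, AdjoinRoot.mk_X]
  have h4 : c * (s⁻¹ * AdjoinRoot.root f ^ m * s⁻¹) = AdjoinRoot.root f ^ m := by
    rw [← hs]
    field_simp
  rw [h3, ← hℓ, ← hcl, h5, h4, htop m hm']

/-! ### The results -/

/-- **part CQA** -/
theorem cqa : Pool.Agent.N783.PF.S_CQA := by
  intro g κ _ _ hg h2 h hm hi hd A hA hdet
  obtain ⟨x, hx, hdet⟩ := hdet
  have hu : IsUnit A.det := by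
    rw [hdet]
    exact ((IsUnit.neg isUnit_one).pow g).mul ((isUnit_iff_ne_zero.2 hx).pow 2)
  rcases isEmpty_or_nonempty {B : Mt g κ // B.IsSymm ∧ chp A B = X * h ∧ Dist A B} with
    hE | ⟨⟨B₀, hB₀, -, hD₀⟩⟩
  · rw [Nat.card_of_isEmpty]
    exact Nat.zero_le _
  obtain ⟨P, hP, hPA⟩ := Pool.Agent.N456.PQ.iso h2 hA hu hB₀ hD₀
  have h5 := Pool.Agent.N87.PJ.cq Pool.Agent.N697.PJ.on g κ hg h2 h hm hi hd
  have h6 := transfer hP hPA (X * h)
  omega

/-- **part CQB** -/
theorem cqb : Pool.Agent.N783.PF.S_CQB := by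
  intro g κ _ _ hg h2 f hm hi hd A hA hdet
  obtain ⟨x, hx, hdet⟩ := hdet
  have hu : IsUnit A.det := by
    rw [hdet]
    exact ((IsUnit.neg isUnit_one).pow g).mul ((isUnit_iff_ne_zero.2 hx).pow 2)
  rcases isEmpty_or_nonempty {B : Mt g κ // B.IsSymm ∧ chp A B = f} with hE | ⟨⟨B₀, hB₀, hc₀⟩⟩
  · rw [Nat.card_of_isEmpty]
    exact Nat.zero_le _
  have hD : ∀ B : Mt g κ, B.IsSymm → chp A B = f → Dist A B := fun B hB hc =>
    dist_of h2 hm hi hd hA hB hx hdet hc
  obtain ⟨P, hP, hPA⟩ := Pool.Agent.N456.PQ.iso h2 hA hu hB₀ (hD B₀ hB₀ hc₀)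
  have h5 := cqf (g := g) Pool.Agent.N697.PJ.on h2 hm hd
  have h6 := transfer hP hPA f
  have h7 : Nat.card {B : Mt g κ // B.IsSymm ∧ chp A B = f} ≤
      Nat.card {B : Mt g κ // B.IsSymm ∧ chp A B = f ∧ Dist A B} :=
    Nat.card_le_card_of_injective (fun B => ⟨B.1, B.2.1, B.2.2, hD B.1 B.2.1 B.2.2⟩)
      fun B B' h => Subtype.ext (by simpa using h)
  exact h7.trans (h6.trans h5)

end Pool.Agent.N42.PF
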